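import Mathlib

/-!
# GL block GG5: the 8-rank of a finite abelian group with many quadratic characters, when the 4-rank is one.
-/

set_option autoImplicit false

namespace Pool.Agent.GL

section gg5aux

variable {G : Type} [CommGroup G] [Finite G]

/-- the joint hom of the characters -/
private def gg5Phi (P : Finset ℕ) (χ : ℕ → G →* ℤˣ) : G →* (P → ℤˣ) :=
  MonoidHom.pi (fun p : P => χ p)

private theorem gg5_mem_ker (P : Finset ℕ) (χ : ℕ → G →* ℤˣ) (g : G) :
    g ∈ (gg5Phi P χ).ker ↔ ∀ p ∈ P, χ p g = 1 := by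
  rw [MonoidHom.mem_ker]
  constructor
  · intro h p hp
    exact congrFun h ⟨p, hp⟩
  · intro h
    funext p
    exact h p p.2

private theorem gg5_card_ker (P : Finset ℕ) (χ : ℕ → G →* ℤˣ)
    (hs : ∀ ε : ℕ → ℤˣ, ∃ g, ∀ p ∈ P, χ p g = ε p) :
    Nat.card (gg5Phi P χ).ker * 2 ^ P.card = Nat.card G := by
  classical
  have hsurj : Function.Surjective (gg5Phi P χ) := by
    intro ε
    obtain ⟨g, hg⟩ := hs (fun p => if h : p ∈ P then ε ⟨p, h⟩ else 1)
    refine ⟨g, ?_⟩
    funext p
    have := hg p p.2
    rw [dif_pos p.2] at this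
    exact this
  have hi : (gg5Phi P χ).ker.index = 2 ^ P.card := by
    rw [Subgroup.index_ker, MonoidHom.range_eq_top.mpr hsurj]
    have h1 : Nat.card (⊤ : Subgroup (P → ℤˣ)) = Nat.card (P → ℤˣ) := Subgroup.card_top
    rw [h1, Nat.card_eq_fintype_card, Fintype.card_fun, Fintype.card_units_int, Fintype.card_coe]
  rw [← hi]
  exact Subgroup.card_mul_index _

private theorem gg5_sq_le (P : Finset ℕ) (χ : ℕ → G →* ℤˣ) :
    (powMonoidHom 2 : G →* G).range ≤ (gg5Phi P χ).ker := by
  rintro _ ⟨k, rfl⟩
  rw [gg5_mem_ker]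
  intro p _
  rw [powMonoidHom_apply, map_pow, Int.units_sq]

private theorem gg5_card_ker_sq (P : Finset ℕ)
    (h2 : Nat.card {g : G // g ^ 2 = 1} = 2 ^ P.card) :
    Nat.card (powMonoidHom 2 : G →* G).ker = 2 ^ P.card := by
  rw [← h2]
  exact Nat.card_congr (Equiv.subtypeEquivRight (fun g => by
    rw [MonoidHom.mem_ker, powMonoidHom_apply]))

private theorem gg5_range_eq (P : Finset ℕ) (χ : ℕ → G →* ℤˣ)
    (hs : ∀ ε : ℕ → ℤˣ, ∃ g, ∀ p ∈ P, χ p g = ε p)
    (h2 : Nat.card {g : G // g ^ 2 = 1} = 2 ^ P.card) :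
    (powMonoidHom 2 : G →* G).range = (gg5Phi P χ).ker := by
  apply Subgroup.eq_of_le_of_card_ge (gg5_sq_le P χ)
  have h1 := gg5_card_ker P χ hs
  have h3 : Nat.card (powMonoidHom 2 : G →* G).ker * (powMonoidHom 2 : G →* G).ker.index
      = Nat.card G := Subgroup.card_mul_index _
  rw [Subgroup.index_ker, gg5_card_ker_sq P h2] at h3
  have hpos : 0 < 2 ^ P.card := by positivity
  have : Nat.card (gg5Phi P χ).ker * 2 ^ P.card
      = Nat.card (powMonoidHom 2 : G →* G).range * 2 ^ P.card := by
    rw [h1, ← h3]; ring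
  exact (Nat.eq_of_mul_eq_mul_right hpos this).le

end gg5aux

/-- GG5 : the 8-rank when the 4-rank is one -/
theorem gg_eight {G : Type} [CommGroup G] [Finite G] (P : Finset ℕ) (χ : ℕ → G →* ℤˣ)
    (hs : ∀ ε : ℕ → ℤˣ, ∃ g, ∀ p ∈ P, χ p g = ε p)
    (h2 : Nat.card {g : G // g ^ 2 = 1} = 2 ^ P.card) (t : G) (ht1 : t ≠ 1) (ht2 : t ^ 2 = 1)
    (ht3 : ∀ g : G, g ^ 2 = 1 → (∀ p ∈ P, χ p g = 1) → g = 1 ∨ g = t) (S : Finset ℕ) (hS : S ⊆ P)
    (hS0 : S.Nonempty) (hψ : ∀ g : G, g ^ 2 = 1 → ∏ p ∈ S, χ p g = 1) (J : G) (hJ : J ^ 2 = t) :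
    2 ^ (P.card + 2) ∣ Nat.card G ↔ ∏ p ∈ S, χ p J = 1 := by
  classical
  set K := (gg5Phi P χ).ker with hK
  have hKr := gg5_range_eq P χ hs h2
  have hcK := gg5_card_ker P χ hs
  have htK : t ∈ K := by
    rw [hK, ← hKr]
    exact ⟨J, hJ⟩
  -- the squaring hom of K
  let sK : K →* K := powMonoidHom 2
  have hkerK : ∀ x : K, x ∈ sK.ker ↔ (x : G) = 1 ∨ (x : G) = t := by
    intro x
    rw [MonoidHom.mem_ker]
    constructor
    · intro h
      have h' : (x : G) ^ 2 = 1 := by
        have := congrArg (Subtype.val) h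
        simpa [sK] using this
      exact ht3 _ h' ((gg5_mem_ker P χ _).mp x.2)
    · intro h
      apply Subtype.ext
      have : (x : G) ^ 2 = 1 := by
        rcases h with h | h
        · rw [h]; simp
        · rw [h]; exact ht2
      simpa [sK] using this
  have hcker : Nat.card sK.ker = 2 := by
    have e : sK.ker = ({(1 : K), ⟨t, htK⟩} : Set K) := by
      ext x
      rw [SetLike.mem_coe, hkerK]
      simp only [Set.mem_insert_iff, Set.mem_singleton_iff, Subtype.ext_iff, OneMemClass.coe_one]
    have h1 : Nat.card sK.ker = Set.ncard ((sK.ker : Set K)) := rfl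
    rw [h1, e]
    apply Set.ncard_pair
    intro h
    apply ht1
    have := congrArg Subtype.val h
    simpa using this.symm
  have hcK2 : 2 * Nat.card sK.range = Nat.card K := by
    have h3 : Nat.card sK.ker * sK.ker.index = Nat.card K := Subgroup.card_mul_index _
    rwa [Subgroup.index_ker, hcker] at h3
  -- first step
  have step1 : 2 ^ (P.card + 2) ∣ Nat.card G ↔ 2 ∣ Nat.card sK.range := by
    rw [← hcK, ← hcK2, pow_add]
    have hpos : 0 < 2 ^ P.card := by positivity
    have e : 2 * Nat.card sK.range * 2 ^ P.card = 2 ^ P.card * (2 * Nat.card sK.range) := by ring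
    rw [e, Nat.mul_dvd_mul_iff_left hpos]
    have : (2 : ℕ) ^ 2 = 2 * 2 := by norm_num
    rw [this, Nat.mul_dvd_mul_iff_left (by norm_num)]
  have step2 : 2 ∣ Nat.card sK.range ↔ ∃ J' ∈ K, J' ^ 2 = t := by
    constructor
    · intro h
      haveI : Fact (Nat.Prime 2) := ⟨Nat.prime_two⟩
      obtain ⟨x, hx⟩ := exists_prime_orderOf_dvd_card' (G := sK.range) 2 h
      have hx2 : x ^ 2 = 1 := by rw [← hx]; exact pow_orderOf_eq_one x
      have hx1 : x ≠ 1 := by
        intro h0
        rw [h0, orderOf_one] at hx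
        norm_num at hx
      have hx3 : (x : K) ∈ sK.ker := by
        rw [MonoidHom.mem_ker]
        have := congrArg Subtype.val hx2
        simpa [sK] using this
      rcases (hkerK _).mp hx3 with h4 | h4
      · exfalso
        apply hx1
        apply Subtype.ext
        apply Subtype.ext
        simpa using h4
      · obtain ⟨j, hj⟩ := x.2
        refine ⟨j, j.2, ?_⟩
        have h5 := congrArg Subtype.val hj
        rw [h4] at h5
        simpa [sK] using h5
    · rintro ⟨J', hJ'K, hJ'⟩
      have hmem : (⟨t, htK⟩ : K) ∈ sK.range := by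
        refine ⟨⟨J', hJ'K⟩, ?_⟩
        apply Subtype.ext
        simpa [sK] using hJ'
      let y : sK.range := ⟨⟨t, htK⟩, hmem⟩
      have hy : orderOf y = 2 := by
        apply orderOf_eq_prime
        · apply Subtype.ext
          apply Subtype.ext
          simpa [y] using ht2
        · intro h
          apply ht1
          have := congrArg (fun z : sK.range => ((z : K) : G)) h
          simpa [y] using this
      rw [← hy]
      exact orderOf_dvd_natCard y
  have step3 : (∃ J' ∈ K, J' ^ 2 = t) ↔ ∏ p ∈ S, χ p J = 1 := by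
    constructor
    · rintro ⟨J', hJ'K, hJ'⟩
      have hg : (J * J'⁻¹) ^ 2 = 1 := by
        rw [mul_pow, inv_pow, hJ, hJ']
        simp
      have h4 := hψ _ hg
      have h5 : ∀ p ∈ S, χ p (J * J'⁻¹) = χ p J := by
        intro p hp
        have := (gg5_mem_ker P χ J').mp hJ'K p (hS hp)
        rw [map_mul, map_inv, this]
        simp
      rw [Finset.prod_congr rfl h5] at h4
      exact h4
    · intro hJ1
      -- psi
      let ψ : G →* ℤˣ := ∏ p ∈ S, χ p
      have hψa : ∀ g, ψ g = ∏ p ∈ S, χ p g := by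
        intro g
        simp only [ψ, MonoidHom.finsetProd_apply]
      have hψs : Function.Surjective ψ := by
        obtain ⟨p0, hp0⟩ := hS0
        obtain ⟨g, hg⟩ := hs (fun p => if p = p0 then -1 else 1)
        have h6 : ψ g = -1 := by
          rw [hψa, Finset.prod_congr rfl (fun p hp => hg p (hS hp))]
          rw [Finset.prod_ite_eq' S p0 (fun _ => (-1 : ℤˣ))]
          rw [if_pos hp0]
        intro u
        rcases Int.units_eq_one_or u with h | h
        · exact ⟨1, by rw [map_one, h]⟩
        · exact ⟨g, by rw [h6, h]⟩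
      have hψc : Nat.card ψ.ker * 2 = Nat.card G := by
        have h7 : ψ.ker.index = 2 := by
          rw [Subgroup.index_ker, MonoidHom.range_eq_top.mpr hψs]
          have h1 : Nat.card (⊤ : Subgroup ℤˣ) = Nat.card ℤˣ := Subgroup.card_top
          rw [h1, Nat.card_eq_fintype_card, Fintype.card_units_int]
        rw [← h7]
        exact Subgroup.card_mul_index _
      let T := (powMonoidHom 2 : G →* G).ker
      have hT : ∀ g : G, g ∈ T ↔ g ^ 2 = 1 := by
        intro g
        rw [MonoidHom.mem_ker, powMonoidHom_apply]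
      let Θ : T × K →* G := MonoidHom.coprod T.subtype K.subtype
      have hΘ : ∀ x : T × K, Θ x = (x.1 : G) * (x.2 : G) := by
        intro x
        simp [Θ, MonoidHom.coprod_apply]
      have hΘr : Θ.range ≤ ψ.ker := by
        rintro _ ⟨x, rfl⟩
        rw [MonoidHom.mem_ker, hΘ, map_mul, hψa, hψa, hψ _ ((hT _).mp x.1.2), one_mul]
        apply Finset.prod_eq_one
        intro p hp
        exact (gg5_mem_ker P χ _).mp x.2.2 p (hS hp)
      have hΘk : Nat.card Θ.ker ≤ 2 := by
        have hsub : (Θ.ker : Set (T × K)) ⊆ {(1 : T × K), (⟨⟨t, (hT t).mpr ht2⟩, ⟨t, htK⟩⟩ : T × K)} := by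
          rintro ⟨g, k⟩ hx
          have hx' : (g : G) * (k : G) = 1 := by
            have := MonoidHom.mem_ker.mp hx
            rwa [hΘ] at this
          have hg2 : (g : G) ^ 2 = 1 := (hT _).mp g.2
          have hgk : (g : G) = (k : G) := by
            have h8 : (g : G) * (g : G) = 1 := by rw [← pow_two]; exact hg2
            have : (g : G) * (g : G) = (g : G) * (k : G) := by rw [h8, hx']
            exact mul_left_cancel this
          have hg : (g : G) = 1 ∨ (g : G) = t := by
            apply ht3 _ hg2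
            rw [hgk]
            exact (gg5_mem_ker P χ _).mp k.2
          rcases hg with h | h
          · left
            apply Prod.ext
            · exact Subtype.ext h
            · exact Subtype.ext (hgk.symm.trans h)
          · right
            apply Prod.ext
            · exact Subtype.ext h
            · exact Subtype.ext (hgk.symm.trans h)
        have h1 : Nat.card Θ.ker = Set.ncard (Θ.ker : Set (T × K)) := rfl
        rw [h1]
        refine le_trans (Set.ncard_le_ncard hsub (Set.toFinite _)) ?_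
        refine le_trans (Set.ncard_insert_le _ _) ?_
        rw [Set.ncard_singleton]
      have hdom : Nat.card (T × K) = Nat.card G := by
        rw [Nat.card_prod, gg5_card_ker_sq P h2, ← hcK, mul_comm]
      have hle : Nat.card ψ.ker ≤ Nat.card Θ.range := by
        have h3 : Nat.card Θ.ker * Θ.ker.index = Nat.card (T × K) := Subgroup.card_mul_index _
        rw [Subgroup.index_ker, hdom, ← hψc] at h3
        have h9 : Nat.card Θ.ker * Nat.card Θ.range ≤ 2 * Nat.card Θ.range :=
          Nat.mul_le_mul_right _ hΘk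
        rw [h3] at h9
        omega
      have heq : Θ.range = ψ.ker := Subgroup.eq_of_le_of_card_ge hΘr hle
      have hJm : J ∈ Θ.range := by
        rw [heq, MonoidHom.mem_ker, hψa]
        exact hJ1
      obtain ⟨⟨g, k⟩, hgk⟩ := hJm
      rw [hΘ] at hgk
      refine ⟨k, k.2, ?_⟩
      have hg2 : (g : G) ^ 2 = 1 := (hT _).mp g.2
      rw [← hJ, ← hgk, mul_pow, hg2, one_mul]
  rw [step1, step2, step3]

end Pool.Agent.GL
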