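import Pool.Agent.Lib_helper51.GL.AMBC
import Pool.Agent.Lib_helper22.GL.CHG
import Pool.Agent.Lib_helper56.GL.CS
import Pool.Agent.Lib_helper94.GL.GG34
import Pool.Agent.Lib_helper61.GL.GG5
import Pool.Agent.Lib_helper8.GL.QRG
import Pool.Agent.Lib_helper45.GL.SYM
import Pool.Agent.Lib_helper72.PQ.R1
import Pool.Agent.Lib_helper72.TM32.E3d

/-!
# Project GL (MP_05dcdc_nt), block HN: the 2-, 4- and 8-part of the class number of `ℤ[√-mq]`
-/

set_option autoImplicit false

namespace Pool.Agent.GL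

open Finset Pool.Agent.PQ Pool.Agent.TM32

/-- the genus characters, one for every prime -/
theorem hn_chi (n : ℕ) [NeZero n] : ∃ χ : ℕ → ClassGroup (Od n) →* ℤˣ, ∀ p, p ∣ n →
    ∀ (C : ClassGroup (Od n)) (a : ℕ) (r : ℤ), Rp n C a r → ((χ p C : ℤˣ) : ℤ) = jacobiSym a p := by
  classical
  refine ⟨fun p => if hp : p ∣ n then (chg n p hp).choose else 1, fun p hp => ?_⟩
  intro C a r h
  simp only [hp, dif_pos]
  exact (chg n p hp).choose_spec C a r h

theorem hn_jac {p : ℕ} (hp : p.Prime) {a u x v : ℤ} (h : a = u * x ^ 2 + p * v) (ha : ¬ (p : ℤ) ∣ a) :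
    jacobiSym a p = jacobiSym u p := by
  have hx : ¬ (p : ℤ) ∣ x := by
    intro hx
    apply ha
    rw [h]
    exact dvd_add (Dvd.dvd.mul_left (dvd_pow hx two_ne_zero) u) (dvd_mul_right _ _)
  have h1 : jacobiSym a p = jacobiSym (u * x ^ 2) p := by
    apply jacobiSym.mod_left'
    rw [h, Int.add_mul_emod_self_left]
  have hg : x.gcd p = 1 := by
    rw [Int.gcd_comm]
    have h2 : Nat.Coprime p x.natAbs := by
      rw [Nat.Prime.coprime_iff_not_dvd hp]
      intro h3
      exact hx (Int.natCast_dvd.2 h3)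
    simpa [Int.gcd, Nat.Coprime] using h2
  rw [h1, jacobiSym.mul_left, jacobiSym.sq_one' hg, mul_one]

section
variable {m q : ℕ} [NeZero (m * q)] (hf : Fam m q)
include hf

theorem hn_bp {d p : ℕ} (hd : d ∣ m) (hp : p.Prime) (hpm : p ∣ m) (a : ℕ) (r : ℤ)
    (hR : Rp (m * q) (amT (m * q) hf.1 d) a r) : jacobiSym a p = bp m q d p := by
  obtain ⟨x, y, hxy⟩ := amT_norm hf.1 (hd.trans (dvd_mul_right m q)) a r hR
  have hpa : ¬ (p : ℤ) ∣ (a : ℤ) := by
    intro h
    have h1 : p ∣ a := by exact_mod_cast h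
    have h2 : p ∣ 2 * (m * q) := (hpm.mul_right q).mul_left 2
    have h3 := Nat.dvd_gcd h1 h2
    rw [hR.2.1] at h3
    exact hp.one_lt.ne' (Nat.dvd_one.1 h3)
  have hm0 : m ≠ 0 := by
    rintro rfl
    exact hf.1.ne_zero (by simp)
  have hd0 : 0 < d := Nat.pos_of_dvd_of_pos hd (Nat.pos_of_ne_zero hm0)
  obtain ⟨e, rfl⟩ := hd
  have e1 : d * e * q / d = e * q := by
    rw [mul_assoc]
    exact Nat.mul_div_cancel_left _ hd0
  have e2 : d * e / d = e := Nat.mul_div_cancel_left _ hd0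
  rw [e1] at hxy
  unfold bp
  rw [e2]
  by_cases hpd : p ∣ d
  · rw [if_pos hpd]
    obtain ⟨f, rfl⟩ := hpd
    refine hn_jac hp (x := y) (v := f * x ^ 2) ?_ hpa
    rw [hxy]
    push_cast
    ring
  · rw [if_neg hpd]
    have hpe : p ∣ e := (Nat.Coprime.dvd_mul_left ((Nat.Prime.coprime_iff_not_dvd hp).2 hpd)).1 hpm
    obtain ⟨f, rfl⟩ := hpe
    refine hn_jac hp (x := x) (v := f * q * y ^ 2) ?_ hpa
    rw [hxy]
    push_cast
    ring

theorem hn_K {d : ℕ} (hd : d ∣ m) : d ∈ K m q ↔ ∀ p ∈ m.primeFactors, bp m q d p = 1 := by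
  classical
  have hm0 : m ≠ 0 := by
    rintro rfl
    exact hf.1.ne_zero (by simp)
  unfold K
  rw [Finset.mem_filter, Nat.mem_divisors]
  constructor
  · rintro ⟨-, h⟩ p hp
    have h1 := h p (Nat.prime_of_mem_primeFactors hp) (Nat.dvd_of_mem_primeFactors hp)
    unfold bp
    by_cases hpd : p ∣ d
    · rw [if_pos hpd]
      exact h1.2 hpd
    · rw [if_neg hpd]
      exact h1.1 hpd
  · intro h
    refine ⟨⟨hd, hm0⟩, fun p hp hpm => ?_⟩
    have h1 := h p (Nat.mem_primeFactors.2 ⟨hp, hpm, hm0⟩)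
    unfold bp at h1
    constructor
    · intro hpd
      rwa [if_neg hpd] at h1
    · intro hpd
      rwa [if_pos hpd] at h1

end

theorem hn_Kdvd {m q d : ℕ} (hd : d ∈ K m q) : d ∣ m := by
  classical
  unfold K at hd
  exact Nat.dvd_of_mem_divisors (Finset.mem_filter.1 hd).1

/-- the class number of `n = m q` -/
theorem hn (m q : ℕ) [NeZero (m * q)] (hf : Fam m q) :
    2 ^ w m ∣ h (m * q) ∧ (2 ^ (w m + 1) ∣ h (m * q) ↔ K m q ≠ {1}) ∧
    (2 ^ (w m + 2) ∣ h (m * q) ↔ K m q ≠ {1} ∧ ¬ Eps m q) := by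
  classical
  have hm0 : m ≠ 0 := by
    rintro rfl
    exact hf.1.ne_zero (by simp)
  have hms : Squarefree m := hf.1.squarefree_of_dvd (dvd_mul_right m q)
  have hfin : Finite (ClassGroup (Od (m * q))) := (r3_three (m * q) hf.1 hf.2.2.2.1).1
  obtain ⟨χ, hχ⟩ := hn_chi (m * q)
  have hs : ∀ ε : ℕ → ℤˣ, ∃ g : ClassGroup (Od (m * q)), ∀ p ∈ m.primeFactors, χ p g = ε p := by
    intro ε
    obtain ⟨C, a, r, hR, hC⟩ := cs_fam m q hf (fun p => ((ε p : ℤˣ) : ℤ)) (fun p => by
      rcases Int.units_eq_one_or (ε p) with h | h <;> simp [h])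
    refine ⟨C, fun p hp => ?_⟩
    apply Units.ext
    rw [hχ p ((Nat.dvd_of_mem_primeFactors hp).mul_right q) C a r hR,
      hC p (Nat.prime_of_mem_primeFactors hp) (Nat.dvd_of_mem_primeFactors hp)]
  have h2 : Nat.card {g : ClassGroup (Od (m * q)) // g ^ 2 = 1} = 2 ^ m.primeFactors.card :=
    amb_card m q hf
  -- the values at the ambiguous classes
  have hval : ∀ d : ℕ, d ∣ m → ∀ p ∈ m.primeFactors,
      ((χ p (amT (m * q) hf.1 d) : ℤˣ) : ℤ) = bp m q d p := by
    intro d hd p hp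
    obtain ⟨a, r, hR⟩ := rp_exists (m * q) (amT (m * q) hf.1 d)
    rw [hχ p ((Nat.dvd_of_mem_primeFactors hp).mul_right q) _ a r hR]
    exact hn_bp hf hd (Nat.prime_of_mem_primeFactors hp) (Nat.dvd_of_mem_primeFactors hp) a r hR
  have hK : ∀ d : ℕ, d ∣ m → ((∀ p ∈ m.primeFactors, χ p (amT (m * q) hf.1 d) = 1) ↔ d ∈ K m q) := by
    intro d hd
    rw [hn_K hf hd]
    refine forall₂_congr fun p hp => ?_
    rw [← hval d hd p hp]
    exact Units.val_eq_one.symm
  have hsq : ∀ d : ℕ, d ∣ m → amT (m * q) hf.1 d ^ 2 = 1 := fun d hd =>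
    amT_sq hf.1 (hd.trans (dvd_mul_right m q))
  have hone : ∀ d : ℕ, d ∣ m → (amT (m * q) hf.1 d = 1 ↔ d = 1) := by
    intro d hd
    constructor
    · intro h
      rw [← amT_one hf.1] at h
      exact ambc_inj hf hd (one_dvd m) h
    · rintro rfl
      exact amT_one hf.1
  have h1K : 1 ∈ K m q := by
    rw [← hK 1 (one_dvd m), amT_one hf.1]
    intro p _
    exact map_one (χ p)
  have hKne : K m q ≠ {1} ↔ ∃ d ∈ K m q, d ≠ 1 := by
    constructor
    · intro h
      by_contra hc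
      push Not at hc
      apply h
      ext d
      rw [Finset.mem_singleton]
      exact ⟨fun hd => hc d hd, fun hd => hd ▸ h1K⟩
    · rintro ⟨d, hd, hd1⟩ h
      rw [h, Finset.mem_singleton] at hd
      exact hd1 hd
  have part1 : 2 ^ w m ∣ h (m * q) := gg_dvd m.primeFactors χ hs
  have hfour := gg_four m.primeFactors χ hs h2
  have part2 : 2 ^ (w m + 1) ∣ h (m * q) ↔ K m q ≠ {1} := by
    refine hfour.1.trans ?_
    rw [hKne]
    constructor
    · rintro ⟨t, ht1, ht2, ht3⟩
      obtain ⟨d, hd, rfl⟩ := ambc_surj hf t ht2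
      refine ⟨d, (hK d hd).1 ht3, fun h => ht1 ((hone d hd).2 h)⟩
    · rintro ⟨d, hd, hd1⟩
      have hdm := hn_Kdvd hd
      exact ⟨amT (m * q) hf.1 d, fun h => hd1 ((hone d hdm).1 h), hsq d hdm, (hK d hdm).2 hd⟩
  refine ⟨part1, part2, ?_⟩
  by_cases hK1 : K m q = {1}
  · constructor
    · intro h
      exact absurd hK1 (part2.1 ((pow_dvd_pow 2 (by omega)).trans h))
    · rintro ⟨h, -⟩
      exact absurd hK1 h
  · obtain ⟨d, hd, hd1⟩ := hKne.1 hK1
    have hdm := hn_Kdvd hd
    by_cases hKd : K m q = {1, d}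
    · -- the 4-rank is one
      have hEps : Eps m q ↔ ¬ (Even (nq m q d) ↔ d % 8 = 1) := by
        constructor
        · rintro ⟨d', hd'1, hd'K, hd'⟩
          have h3 : d' = d := by
            have h4 : d' ∈ K m q := by rw [hd'K]; simp
            rw [hKd, Finset.mem_insert, Finset.mem_singleton] at h4
            exact h4.resolve_left hd'1
          rwa [h3] at hd'
        · intro h3
          exact ⟨d, hd1, hKd, h3⟩
      have ht1 : amT (m * q) hf.1 d ≠ 1 := fun h => hd1 ((hone d hdm).1 h)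
      have ht3 : ∀ g : ClassGroup (Od (m * q)), g ^ 2 = 1 → (∀ p ∈ m.primeFactors, χ p g = 1) →
          g = 1 ∨ g = amT (m * q) hf.1 d := by
        intro g hg hg1
        obtain ⟨d', hd', rfl⟩ := ambc_surj hf g hg
        have h3 := (hK d' hd').1 hg1
        rw [hKd, Finset.mem_insert, Finset.mem_singleton] at h3
        rcases h3 with rfl | rfl
        · exact Or.inl (amT_one hf.1)
        · exact Or.inr rfl
      have hS : d.primeFactors ⊆ m.primeFactors := Nat.primeFactors_mono hdm hm0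
      have hd0 : d ≠ 0 := fun h => hm0 (by rw [h] at hdm; exact Nat.eq_zero_of_zero_dvd hdm)
      have hS0 : d.primeFactors.Nonempty := Nat.nonempty_primeFactors.2 (by omega)
      have hψ : ∀ g : ClassGroup (Od (m * q)), g ^ 2 = 1 → ∏ p ∈ d.primeFactors, χ p g = 1 := by
        intro g hg
        obtain ⟨d', hd', rfl⟩ := ambc_surj hf g hg
        apply Units.ext
        rw [Units.coe_prod, Units.val_one, ← sym m q hf d d' hd hd']
        exact Finset.prod_congr rfl fun p hp => hval d' hd' p (hS hp)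
      obtain ⟨J, hJ⟩ := (gg_sq m.primeFactors χ hs h2 (amT (m * q) hf.1 d)).1 ((hK d hdm).2 hd)
      have h8 := gg_eight m.primeFactors χ hs h2 (amT (m * q) hf.1 d) ht1 (hsq d hdm) ht3
        d.primeFactors hS hS0 hψ J hJ.symm
      obtain ⟨a, r, hR⟩ := rp_exists (m * q) J
      obtain ⟨X, Y, hXY, hN⟩ := amT_sqrt hf.1 (hdm.trans (dvd_mul_right m q)) J a r hR hJ.symm
      have hq := qrg m q hf d hd a hR.2.1 X Y hXY hN
      have hprod : ((∏ p ∈ d.primeFactors, χ p J : ℤˣ) : ℤ) = jacobiSym a d := by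
        rw [Units.coe_prod, qrg_sq a d (hms.squarefree_of_dvd hdm)]
        exact Finset.prod_congr rfl fun p hp =>
          hχ p ((Nat.dvd_of_mem_primeFactors (hS hp)).mul_right q) J a r hR
      have h9 : 2 ^ (w m + 2) ∣ h (m * q) ↔ (Even (nq m q d) ↔ d % 8 = 1) := by
        rw [← hq, ← hprod, Units.val_eq_one]
        exact h8
      rw [h9, hEps, not_not]
      exact ⟨fun h => ⟨hK1, h⟩, fun h => h.2⟩
    · -- the 4-rank is at least two
      obtain ⟨d', hd', hd'1, hdd⟩ : ∃ d' ∈ K m q, d' ≠ 1 ∧ d' ≠ d := by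
        by_contra hc
        push Not at hc
        apply hKd
        ext e
        rw [Finset.mem_insert, Finset.mem_singleton]
        constructor
        · intro he
          by_cases he1 : e = 1
          · exact Or.inl he1
          · exact Or.inr (hc e he he1)
        · rintro (rfl | rfl)
          · exact h1K
          · exact hd
      have hdm' := hn_Kdvd hd'
      have h3 := hfour.2 (amT (m * q) hf.1 d) (amT (m * q) hf.1 d')
        (fun h => hd1 ((hone d hdm).1 h)) (fun h => hd'1 ((hone d' hdm').1 h))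
        (fun h => hdd (ambc_inj hf hdm hdm' h).symm) (hsq d hdm) (hsq d' hdm')
        ((hK d hdm).2 hd) ((hK d' hdm').2 hd')
      have hE : ¬ Eps m q := by
        rintro ⟨e, he1, heK, -⟩
        rw [heK, Finset.mem_insert, Finset.mem_singleton] at hd hd'
        have h4 := hd.resolve_left hd1
        have h5 := hd'.resolve_left hd'1
        exact hdd (h5.trans h4.symm)
      exact ⟨fun _ => ⟨hK1, hE⟩, fun _ => h3⟩

end Pool.Agent.GL
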